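import Pool.Agent.Helper32.AG.Goals

/-!
# Packet AG-N3: numbers, one block

With `kk = d + m`: `h ≤ d m + 1` and `p ^ a - 1 ≤ g = r d (d m + 1)`; if `d + m + r ≥ 13` then
`g (g + 1) ≤ 3 ^ (d + m + r - 1)`; otherwise `p ^ a ≤ 447`: finite check for `d ≥ 2`.
-/

set_option autoImplicit false

namespace Pool.Agent.Helper40.AG

open Pool.Agent.Helper32.AG

theorem exp_big (n : ℕ) (hn : 14 ≤ n) : n ^ 4 * (n ^ 4 + 64) ≤ 4096 * 3 ^ (n - 2) := by
  induction n, hn using Nat.le_induction with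
  | base => norm_num
  | succ n hn ih =>
    have h1 : 3 * (n + 1) ^ 4 ≤ 4 * n ^ 4 := by
      obtain ⟨t, rfl⟩ := Nat.exists_eq_add_of_le hn
      ring_nf
      omega
    have h2 : 3 ^ (n + 1 - 2) = 3 * 3 ^ (n - 2) := by
      rw [← pow_succ']
      congr 1
      omega
    rw [h2]
    generalize (n + 1) ^ 4 = X at *
    generalize n ^ 4 = Y at *
    have h3 : (3 * X) * (3 * X + 192) ≤ (4 * Y) * (4 * Y + 192) :=
      Nat.mul_le_mul h1 (by omega)
    have h4 : 9 * (X * (X + 64)) ≤ 27 * (Y * (Y + 64)) := by nlinarith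
    omega

theorem amgm (x y : ℕ) : 4 * (x * y) ≤ (x + y) ^ 2 := by
  zify
  nlinarith [sq_nonneg ((x : ℤ) - y)]

theorem g_le (d m r : ℕ) (hd : 0 < d) : 64 * (r * d * (d * m + 1)) ≤ (d + m + r + 1) ^ 4 := by
  have h1 : r * d * (d * m + 1) ≤ (r * (m + 1)) * d ^ 2 := by
    have : d * m + 1 ≤ d * (m + 1) := by nlinarith
    calc r * d * (d * m + 1) ≤ r * d * (d * (m + 1)) := Nat.mul_le_mul_left _ this
      _ = (r * (m + 1)) * d ^ 2 := by ring
  have h2 := amgm r (m + 1)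
  have h3 := amgm (r + (m + 1)) d
  have h4 : (4 * ((r + (m + 1)) * d)) ^ 2 ≤ ((r + (m + 1) + d) ^ 2) ^ 2 :=
    Nat.pow_le_pow_left h3 2
  have h5 : 4 * (r * (m + 1)) * (16 * d ^ 2) ≤ (r + (m + 1)) ^ 2 * (16 * d ^ 2) :=
    Nat.mul_le_mul_right _ h2
  calc 64 * (r * d * (d * m + 1)) ≤ 64 * ((r * (m + 1)) * d ^ 2) := Nat.mul_le_mul_left _ h1
    _ = 4 * (r * (m + 1)) * (16 * d ^ 2) := by ring
    _ ≤ (r + (m + 1)) ^ 2 * (16 * d ^ 2) := h5
    _ = (4 * ((r + (m + 1)) * d)) ^ 2 := by ring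
    _ ≤ ((r + (m + 1) + d) ^ 2) ^ 2 := h4
    _ = (d + m + r + 1) ^ 4 := by ring

theorem large (d m r : ℕ) (hd : 0 < d) (hN : 13 ≤ d + m + r) :
    r * d * (d * m + 1) * (r * d * (d * m + 1) + 1) ≤ 3 ^ (d + m + r - 1) := by
  have h1 := g_le d m r hd
  have h2 := exp_big (d + m + r + 1) (by omega)
  have e : d + m + r + 1 - 2 = d + m + r - 1 := by omega
  rw [e] at h2
  generalize r * d * (d * m + 1) = g at *
  generalize (d + m + r + 1) ^ 4 = X at *
  have h3 : (64 * g) * (64 * g + 64) ≤ X * (X + 64) := Nat.mul_le_mul h1 (by omega)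
  have h4 : 4096 * (g * (g + 1)) ≤ 4096 * 3 ^ (d + m + r - 1) := by nlinarith
  omega

theorem exp_one (t : ℕ) (ht : 4 ≤ t) : t ^ 2 * (t ^ 2 + 4) ≤ 16 * 3 ^ (t - 1) := by
  induction t, ht using Nat.le_induction with
  | base => norm_num
  | succ t ht ih =>
    have h2 : 3 ^ (t + 1 - 1) = 3 * 3 ^ (t - 1) := by
      rw [← pow_succ']
      congr 1
      omega
    rw [h2]
    have h3 : (t + 1) ^ 2 * ((t + 1) ^ 2 + 4) ≤ 3 * (t ^ 2 * (t ^ 2 + 4)) := by
      obtain ⟨x, rfl⟩ := Nat.exists_eq_add_of_le ht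
      ring_nf
      omega
    omega

theorem one_case (h r : ℕ) (hr : 1 ≤ r) (hh : 1 ≤ h) (h3 : 3 ≤ r * h) :
    r * h * (r * h + 1) ≤ 3 ^ (h + r - 1) := by
  have h4 : 4 ≤ h + r := by
    by_contra hc
    rw [not_le] at hc
    have h5 : h ≤ 2 := by omega
    have h6 : r ≤ 2 := by omega
    interval_cases h <;> interval_cases r <;> omega
  have h1 := amgm r h
  have h2 := exp_one (h + r) h4
  have e : r + h = h + r := add_comm _ _
  rw [e] at h1
  generalize r * h = g at *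
  generalize (h + r) ^ 2 = X at *
  have h5 : (4 * g) * (4 * g + 4) ≤ X * (X + 4) := Nat.mul_le_mul h1 (by omega)
  have h6 : 16 * (g * (g + 1)) ≤ 16 * 3 ^ (h + r - 1) := by nlinarith
  omega

/-- the innermost check -/
def Q1 (p a d h : ℕ) : Prop := ∀ kk < 13, ∀ r < 13, d * d + h ≤ d * kk + 1 →
  1 ≤ r → p ^ a - 1 ≤ r * (h * d) → p ^ a * (p ^ a - 1) ≤ 3 ^ (kk + r - 1)

instance decQ1 (p a d h : ℕ) : Decidable (Q1 p a d h) := by
  unfold Q1
  infer_instance

/-- no smaller field -/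
def Q0 (p a h : ℕ) : Prop := ∀ a' < a, a' ∣ a → ¬ h ∣ p ^ a' - 1

instance decQ0 (p a h : ℕ) : Decidable (Q0 p a h) := by
  unfold Q0
  infer_instance

/-- the check for `d` -/
def Q2 (p a d : ℕ) : Prop := ∀ h < 447, 0 < h → h ∣ p ^ a - 1 → Q0 p a h → Q1 p a d h

instance decQ2 (p a d : ℕ) : Decidable (Q2 p a d) := by
  unfold Q2
  infer_instance

/-- the check for `p, a` -/
def Q3 (p a : ℕ) : Prop := ∀ d < 9, 2 ≤ d → d ∣ a → ¬ p ∣ d → Q2 p a d

instance decQ3 (p a : ℕ) : Decidable (Q3 p a) := by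
  unfold Q3
  infer_instance

theorem chk : ∀ p ∈ [2, 3, 5, 7, 11, 13, 17, 19], ∀ a < 9, 2 ≤ a → p ^ a ≤ 447 → Q3 p a := by
  decide +kernel

theorem primes : ∀ p < 22, p.Prime → p ∈ [2, 3, 5, 7, 11, 13, 17, 19] := by
  intro p hp hpp
  interval_cases p <;> first | decide | (exfalso; revert hpp; norm_num)

theorem n3 : N3Stmt := by
  intro p a d h kk r hp ha hq hd hh hda hpd hhq hmin hkk hr hwr
  have hkd : d ≤ kk := by
    by_contra hc
    rw [not_le] at hc
    have h1 : d * kk + d * 1 ≤ d * d := by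
      rw [← mul_add]
      exact Nat.mul_le_mul_left _ hc
    omega
  obtain ⟨m, rfl⟩ := Nat.exists_eq_add_of_le hkd
  have hm : h ≤ d * m + 1 := by
    have : d * (d + m) = d * d + d * m := by ring
    omega
  have hwg : p ^ a - 1 ≤ r * d * (d * m + 1) := by
    refine hwr.trans ?_
    calc r * (h * d) ≤ r * ((d * m + 1) * d) :=
          Nat.mul_le_mul_left _ (Nat.mul_le_mul_right _ hm)
      _ = r * d * (d * m + 1) := by ring
  rcases le_or_gt 13 (d + m + r) with hN | hN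
  · refine le_trans ?_ (large d m r hd hN)
    rw [mul_comm]
    exact Nat.mul_le_mul hwg (by omega)
  · rcases (show d = 1 ∨ 2 ≤ d by omega) with h1 | h2
    · subst h1
      have h3 : p ^ a - 1 ≤ r * h := by
        rw [mul_one] at hwr
        exact hwr
      have h4 := one_case h r hr hh (by omega)
      refine le_trans ?_ (h4.trans (Nat.pow_le_pow_right (by norm_num) (by omega)))
      rw [mul_comm]
      exact Nat.mul_le_mul h3 (by omega)
    · have h3 := g_le d m r hd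
      have h4 : (d + m + r + 1) ^ 4 ≤ 13 ^ 4 := Nat.pow_le_pow_left (by omega) 4
      have hq447 : p ^ a ≤ 447 := by
        norm_num at h4
        omega
      have hda' : d ≤ a := Nat.le_of_dvd ha hda
      have hp22 : p < 22 := by
        by_contra hc
        rw [not_lt] at hc
        have h5 : 22 ^ 2 ≤ p ^ 2 := Nat.pow_le_pow_left hc 2
        have h6 : p ^ 2 ≤ p ^ a := Nat.pow_le_pow_right hp.pos (by omega)
        norm_num at h5
        omega
      have ha9 : a < 9 := by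
        by_contra hc
        rw [not_lt] at hc
        have h5 : 2 ^ 9 ≤ 2 ^ a := Nat.pow_le_pow_right (by norm_num) hc
        have h6 : 2 ^ a ≤ p ^ a := Nat.pow_le_pow_left hp.two_le a
        norm_num at h5
        omega
      have hhle : h ≤ p ^ a - 1 := Nat.le_of_dvd (by omega) hhq
      exact chk p (primes p hp22 hp) a ha9 (by omega) hq447 d (by omega) h2 hda hpd h (by omega)
        hh hhq (fun a' ha' hd' => hmin a' hd' ha') (d + m) (by omega) r (by omega) hkk hr hwr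

end Pool.Agent.Helper40.AG
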